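import Mathlib

namespace Pool.Agent.Results.MP_80b119_nt.Counterexample

/-- The product of the first `n` primes `p_0 = 2, p_1 = 3, ...` (so `primorialProd 0 = 1`). -/
noncomputable def primorialProd (n : ℕ) : ℕ := ∏ k ∈ Finset.range n, Nat.nth Nat.Prime k

/-- The sequence `a(n) = P_n ^ 2 + 1`. -/
noncomputable def a (n : ℕ) : ℕ := primorialProd n ^ 2 + 1

theorem nth_of_count {k p : ℕ} (hp : Nat.Prime p) (hk : Nat.count Nat.Prime p = k) :
    Nat.nth Nat.Prime k = p := by
  rw [← hk]
  exact Nat.nth_count hp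

theorem primorialProd_nine : primorialProd 9 = 223092870 := by
  have h0 : Nat.nth Nat.Prime 0 = 2 := nth_of_count (by norm_num) (by decide)
  have h1 : Nat.nth Nat.Prime 1 = 3 := nth_of_count (by norm_num) (by decide)
  have h2 : Nat.nth Nat.Prime 2 = 5 := nth_of_count (by norm_num) (by decide)
  have h3 : Nat.nth Nat.Prime 3 = 7 := nth_of_count (by norm_num) (by decide)
  have h4 : Nat.nth Nat.Prime 4 = 11 := nth_of_count (by norm_num) (by decide)
  have h5 : Nat.nth Nat.Prime 5 = 13 := nth_of_count (by norm_num) (by decide)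
  have h6 : Nat.nth Nat.Prime 6 = 17 := nth_of_count (by norm_num) (by decide)
  have h7 : Nat.nth Nat.Prime 7 = 19 := nth_of_count (by norm_num) (by decide)
  have h8 : Nat.nth Nat.Prime 8 = 23 := nth_of_count (by norm_num) (by decide)
  simp only [primorialProd, Finset.prod_range_succ, Finset.prod_range_zero,
    h0, h1, h2, h3, h4, h5, h6, h7, h8]
  norm_num

/-- `a(9) = 223092870 ^ 2 + 1` is divisible by `29 ^ 2`; hence not every `a(n)` is squarefree. -/
theorem result :
    (Nat.Prime 29 ∧ 29 ^ 2 ∣ a 9) ∧ ¬ ∀ n : ℕ, Squarefree (a n) := by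
  have hdvd : 29 ^ 2 ∣ a 9 := by
    unfold a
    rw [primorialProd_nine]
    norm_num
  refine ⟨⟨by norm_num, hdvd⟩, fun h => ?_⟩
  have h29 : IsUnit (29 : ℕ) := h 9 29 (by rw [← sq]; exact hdvd)
  rw [Nat.isUnit_iff] at h29
  omega

end Pool.Agent.Results.MP_80b119_nt.Counterexample
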